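import Mathlib
import Pool.Agent.KS6_2.HC.Sum

/-!
# MP_67e79f_co: for which treewidths is the number of labels unbounded?

For every `k ≥ 3` and every `c` there is a good graph of treewidth exactly `k` that is not
`c`-good; already graphs of pathwidth at most 3 on `n` vertices can need `(n - 1) / 4` labels.
-/

namespace Pool.Agent.Results.MP_67e79f_co.EveryTreewidth

open SimpleGraph Pool.Agent.KS6_2.HC

/-- (1) For every `k ≥ 3` and every `c` some finite good graph of treewidth exactly `k` is not
`c`-good; in particular no function bounds the number of labels in terms of the treewidth.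
(2) For every `N ≥ 3` some good graph with `4 N + 1` vertices and a path decomposition of width
at most 3 is such that each of its good edge-labelings has at least `N` distinct labels. -/
theorem result :
    (∀ k : ℕ, 3 ≤ k → ∀ c : ℕ, ∃ (V : Type) (_ : Fintype V) (G : SimpleGraph V),
      GoodGraph G ∧ treewidth G = k ∧ ¬ CGood c G) ∧
    (∀ N : ℕ, 3 ≤ N → ∃ (V : Type) (_ : Fintype V) (G : SimpleGraph V),
      Fintype.card V = 4 * N + 1 ∧ GoodGraph G ∧ PwLE G 3 ∧
      ∀ lam : Sym2 V → ℝ, IsGoodLabeling G lam → (N : ℕ∞) ≤ (lam '' G.edgeSet).encard) := by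
  refine ⟨fun k hk c => ?_, fun N hN => ?_⟩
  · obtain ⟨S, hS⟩ := exists_tw (c + 3) k hk
    refine ⟨_, inferInstance, GS (c + 3) k S, ⟨_, gs_good _ _ _⟩, hS, ?_⟩
    rintro ⟨lam, hg, hcard⟩
    have h2 := (gs_many (c + 3) k (by omega) S hg).trans hcard
    have h3 : c + 3 ≤ c := by exact_mod_cast h2
    omega
  · refine ⟨Vt N, inferInstance, Gr N, ?_, ⟨_, good N⟩, ?_, fun lam h => many N hN h⟩
    · exact card_vt N
    · exact pw_gr N

end Pool.Agent.Results.MP_67e79f_co.EveryTreewidth
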